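import Pool.Agent.Helper41.LF.GoalsA

/-!
# Packet LF-PSI (MP_c307ca_nt)
-/

set_option autoImplicit false

namespace Pool.Agent.Helper41.LF

open MeasureTheory Finset

theorem psi_nonneg59 {d j : ℕ} (a K : ℝ) (β : Fin j → Fin (d + 1) → ℤ) (x : ℝ) : 0 ≤ psi a K β x :=
  Finset.sum_nonneg fun _ _ => abs_nonneg _

theorem psi_zero59 {d j : ℕ} (a K : ℝ) (β : Fin j → Fin (d + 1) → ℤ) (x : ℝ) (hj : j = 0) :
    psi a K β x = 1 := by
  subst hj
  unfold psi mnr
  simp

theorem thm_PSI (hT : S_TUP) (hR : S_REL) (hL : S_LAP) (hF : S_ONF) (hP : S_ONP) (hQ : S_POL) :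
    S_PSI := by
  intro d a K hd ha hK haK
  choose β hβ using hT d
  have hrank : ∀ W : Submodule ℚ (Fin (d + 1) → ℚ), Module.finrank ℚ W ≤ d + 1 := fun W => by
    have h := Submodule.finrank_le W
    rwa [Module.finrank_fin_fun] at h
  refine ⟨fun W x => psi a K (β W) x, ?_, ?_, ?_, ?_⟩
  · intro x
    exact psi_zero59 a K (β ⊥) x (finrank_bot ℚ _)
  · intro W
    obtain ⟨f, hf1, hf2⟩ := hQ d (Module.finrank ℚ W) a K (β W)
    refine ⟨Fin (Module.finrank ℚ W) → Fin (d + 1), inferInstance, f, ?_, ?_, ?_⟩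
    · rw [Fintype.card_fun, Fintype.card_fin, Fintype.card_fin]
      exact Nat.pow_le_pow_right (Nat.succ_pos d) (hrank W)
    · intro r
      exact (hf1 r).trans (Nat.mul_le_mul_left _ (hrank W))
    · intro x
      show psi a K (β W) x = _
      unfold psi
      exact Finset.sum_congr rfl fun r _ => by rw [hf2]
  · intro W hW
    rcases Nat.lt_or_ge d (Module.finrank ℚ W) with h | h
    · have h1 : Module.finrank ℚ W = d + 1 := le_antisymm (hrank W) h
      have key : ∀ (j : ℕ) (γ : Fin j → Fin (d + 1) → ℤ), j = d + 1 →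
          LinearIndependent ℚ (fun k => toQ (γ k)) → ∀ x : ℝ, 1 ≤ psi a K γ x := by
        intro j γ hj hli x
        subst hj
        exact hF d a K γ ha (by linarith) haK hli x
      exact ⟨0, Nat.zero_le _, key _ (β W) h1 (hβ W).1.1 _⟩
    · exact hP d _ a K (β W) hK h (hβ W).1.1
  · intro W v hv x M hM
    show psi a K (β (W ⊔ Submodule.span ℚ {toQ v})) x ≤ (d + 1) ^ 2 * M * psi a K (β W) x
    have e1 : (fun k => toQ ((Fin.cons v (β W) : Fin (Module.finrank ℚ W + 1) → Fin (d + 1) → ℤ) k)) =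
        (Fin.cons (toQ v) (fun k => toQ (β W k)) : Fin (Module.finrank ℚ W + 1) → Fin (d + 1) → ℚ) := by
      funext k
      refine Fin.cases ?_ (fun k => ?_) k
      · simp only [Fin.cons_zero]
      · simp only [Fin.cons_succ]
    have hli : LinearIndependent ℚ
        (fun k => toQ ((Fin.cons v (β W) : Fin (Module.finrank ℚ W + 1) → Fin (d + 1) → ℤ) k)) := by
      rw [e1]
      refine linearIndependent_finCons.2 ⟨(hβ W).1.1, ?_⟩
      rw [(hβ W).1.2]
      exact hv
    have hspan : Submodule.span ℚ (Set.range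
        (fun k => toQ ((Fin.cons v (β W) : Fin (Module.finrank ℚ W + 1) → Fin (d + 1) → ℤ) k))) =
        W ⊔ Submodule.span ℚ {toQ v} := by
      rw [e1, Fin.range_cons, Submodule.span_insert, (hβ W).1.2, sup_comm]
    have hfr : Module.finrank ℚ (W ⊔ Submodule.span ℚ {toQ v} : Submodule ℚ (Fin (d + 1) → ℚ)) =
        Module.finrank ℚ W + 1 := by
      have h := finrank_span_eq_card hli
      rw [hspan, Fintype.card_fin] at h
      exact h
    have hmem : ∀ k, toQ ((Fin.cons v (β W) : Fin (Module.finrank ℚ W + 1) → Fin (d + 1) → ℤ) k) ∈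
        W ⊔ Submodule.span ℚ {toQ v} := by
      intro k
      rw [← hspan]
      exact Submodule.subset_span ⟨k, rfl⟩
    have h1 := hR d _ _ a K (W ⊔ Submodule.span ℚ {toQ v}) (β _) (Fin.cons v (β W)) hfr.symm (hβ _)
      hli hmem x
    have h2 := hL d _ a K x M (β W) v hM
    have hM0 : 0 ≤ M := (abs_nonneg _).trans (hM 0)
    have h3 : ((Module.finrank ℚ W : ℕ) : ℝ) + 1 ≤ d + 1 := by
      have h4 := hrank (W ⊔ Submodule.span ℚ {toQ v})
      rw [hfr] at h4
      exact_mod_cast h4
    have h5 := psi_nonneg59 a K (β W) x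
    refine h1.trans (h2.trans ?_)
    refine mul_le_mul_of_nonneg_right ?_ h5
    refine mul_le_mul_of_nonneg_right ?_ hM0
    rw [pow_two]
    exact mul_le_mul_of_nonneg_right h3 (by positivity)

end Pool.Agent.Helper41.LF
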